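import Mathlib
import Pool.Agent.H204R3.GP.HomDefs
import Pool.Agent.H204R3.GP.Hom
import Pool.Agent.H977R3.AB.Slopes

/-!
# The motivated Mumford-Tate conjecture for abelian varieties with one Frobenius element whose
eigenvalues generate abelian fields

Let `A` be an abelian variety, of any dimension and with arbitrary endomorphisms, over a finitely
generated subfield `K` of `ℂ`.  Suppose that for ONE closed point (with residue field of `q = p ^ a`
elements) of a model over which `A` has good reduction, the characteristic polynomial of the
Frobenius element is the product of the minimal polynomials of Weil numbers `π i` such that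

* (`OddSumsNonzero`) the CM field `F i = ℚ(π i)` is abelian over `ℚ`, and for every odd character
  `χ` of its Galois group and embedding `τ` of `F i` into an algebraic closure of `ℚ_p` the sum of
  `u (τ ∘ g) * χ g` over the Galois group does not vanish, `u = N (2 s - 1)` with the slope `s`;
* (`RealMeet`) for `i ≠ i'` the images of `F i` and `F i'` in `ℂ` have only real numbers in common
  (in other words: no CM field embeds in both).

Then for all primes `ℓ ≠ p` every homomorphism between the `ℓ`-adic realizations of the motives
`h_1(A) ^ {⊗ s} (c)` and `h_1(A) ^ {⊗ t} (d)`, which commutes with a subgroup of finite index of the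
Galois group, is a linear combination of products of Tate classes of degree two; by the theorem of
Faltings these are classes of divisors.  So every Tate class in the tannakian category generated by
`h_1(A)` is a linear combination of algebraic (so motivated) classes, and since by Deligne and André
Hodge classes on abelian varieties are motivated and motivated classes are Tate classes, the
(motivated) Mumford-Tate conjecture holds for the motive `h(A)` and for all motives that it
generates.

In the Lean statement `V` is the rational Tate module with the action `ρ` of the Galois group, `ω`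
is the Weil pairing of a polarization, `χ` is the cyclotomic character and `γ` the Frobenius
element.

The proof.  Multiplicative relations between the conjugates of the Weil numbers give, by the slopes,
a relation between all translates of an integral vector on the set of the embeddings.  The fields
`F i` are in pairs independent: the complex conjugation is a product of an automorphism that fixes
`F i` and one that fixes `F i'`; so the relation splits into relations for the single fields, and
for an abelian field with nonvanishing odd character sums there is no relation by the orthogonality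
of characters.  So the Frobenius element generates a maximal torus of the group of symplectic
similitudes, and the Lie algebra of the endomorphisms that kill all Tate classes is over a finite
extension a product of symplectic and general linear Lie algebras.
-/

namespace Pool.Agent.Results.MP_b8862a_ag.AbelianFrobeniusFields

open NumberField Module Pool.Agent.H204R3.GP Pool.Agent.H204R3.SP Pool.Agent.H977R3.AB
  IntermediateField

/-- If the characteristic polynomial of one element `γ` of the Galois group is the product of the
minimal polynomials of Weil numbers `π i` in abelian CM fields, with slopes whose odd character sums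
do not vanish, where no CM field embeds in two of these fields, all homomorphisms
`V ^ {⊗ s} (c) → V ^ {⊗ t} (d)` are generated in degree two. -/
theorem result (ℓ p : ℕ) [Fact ℓ.Prime] [Fact p.Prime] (a : ℕ) (ha : 0 < a)
    {ι : Type} [Fintype ι] (F : ι → Type) [∀ i, Field (F i)] [∀ i, NumberField (F i)]
    [∀ i, IsCMField (F i)] (π : ∀ i, F i) (hgen : ∀ i, ℚ⟮π i⟯ = ⊤)
    (hweil : ∀ i, π i * IsCMField.complexConj (F i) (π i) = (p : F i) ^ a)
    (hodd : ∀ i, OddSumsNonzero p a (π i)) (hmeet : ∀ i i', i ≠ i' → RealMeet (F i) (F i'))
    {V : Type} [AddCommGroup V] [Module ℚ_[ℓ] V] [FiniteDimensional ℚ_[ℓ] V]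
    {Γ : Type} [Group Γ] (ρ : Representation ℚ_[ℓ] Γ V) (χ : Γ →* ℚ_[ℓ])
    (ω : V →ₗ[ℚ_[ℓ]] V →ₗ[ℚ_[ℓ]] ℚ_[ℓ]) (halt : ∀ v, ω v v = 0)
    (hnondeg : ∀ u, (∀ v, ω v u = 0) → u = 0)
    (hω : ∀ s u v, ω (ρ s u) (ρ s v) = χ s * ω u v)
    (hss : FiniteIndexSemisimple ρ)
    (γ : Γ) (hχ : χ γ = (p : ℚ_[ℓ]) ^ a)
    (hγ : (ρ γ).charpoly = ∏ i, (minpoly ℚ (π i)).map (algebraMap ℚ ℚ_[ℓ])) :
    HomsGeneratedInDegreeTwo ρ χ ω := by
  have hss' : ∀ Δ : Subgroup Γ, Δ.FiniteIndex → SemiUnder (ρ '' (Δ : Set Γ)) := by
    intro Δ hΔ U hU
    obtain ⟨U', h1, h2⟩ := hss Δ hΔ U (fun s hs u hu => hU _ ⟨s, hs, rfl⟩ u hu)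
    refine ⟨U', ?_, h2⟩
    rintro _ ⟨s, hs, rfl⟩ u hu
    exact h1 s hs u hu
  exact homs_generated ρ χ ω halt hnondeg hω fun m φ hφ => tate_of_oddSums ha hgen hweil
    hodd hmeet ρ χ ω halt hnondeg hω hss' γ hχ hγ φ hφ

end Pool.Agent.Results.MP_b8862a_ag.AbelianFrobeniusFields
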