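import Mathlib
import Pool.Agent.H194R3.CM.Defs
import Pool.Agent.H204R3.GP.Defs
import Pool.Agent.H204R3.GP.MTDefs
import Pool.Agent.H204R3.GP.PairDefs
import Pool.Agent.H204R3.GP.PairFamily
import Pool.Agent.H204R3.GP.MT
import Pool.Agent.H204R3.GP.Pair

/-!
# The Mumford-Tate conjecture for abelian varieties with one good Frobenius element

Let `A` be an abelian variety over a finitely generated subfield `K` of the complex numbers, of any
dimension and with arbitrary endomorphisms.  Suppose that `A` has good reduction at ONE closed point
`v` (of a model of `K`, with residue field of `p ^ a` elements) such that the characteristic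
polynomial of the Frobenius element is the product of the minimal polynomials of Weil numbers `π i`,
where the CM fields `F i = ℚ(π i)`, with maximal real subfields `R i` of degrees `n i`, have the
following properties.

* `R i` is pair-transitive: the automorphisms of the complex numbers act transitively on the
  unordered pairs of embeddings of `R i` (this is so if the Galois group of `R i` is the symmetric or
  alternating group or any 2-transitive or 2-homogeneous group of degree `n i`); moreover `n i` is
  odd, or `n i - 1` is a prime number, or the action on the unordered triples is transitive as well.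
  There is no other condition on `F i`; in particular, `F i` can contain an imaginary quadratic field.
* Embeddings of different fields `F i` are flipped: some automorphism of the complex numbers fixes
  one of them and conjugates the other one.
* `π i` has exactly two slopes `x i` and `1 - x i` (in particular if `A` is ordinary at `v`), and,
  for every imaginary quadratic subfield `ℚ(δ)` of `F i`, if `n i > 1`, the number of the slopes
  which are less than `1 / 2` over a fixed `p`-adic embedding of `ℚ(δ)` is different from `0` and
  from `n i / 2` (and so from `n i`).

Then, for all primes `ℓ` not divisible by `v`, all Tate classes in the tensor powers of `H^1` (and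
so in the cohomology of all powers of `A`) are linear combinations of Hodge classes, and even of
products of Hodge classes of degree two.  Together with the theorem of Deligne (Hodge classes are
Tate classes) this is the equality of the Mumford-Tate group (over `ℚ_ℓ`) and of the connected
component of the `ℓ`-adic monodromy group: both are reductive (Faltings), so that they are determined
by their invariants in the spaces `(H^1)^{⊗ 2 m}(m)`.  So the Mumford-Tate conjecture holds for `A`
and for all motives in the tannakian category generated by `H^1(A)`.  Moreover, all these classes are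
algebraic (Lefschetz), so that the motivic Galois group is the same group, and the Hodge and the Tate
conjecture hold for all powers of `A`.

In the Lean statement `W` is `H_1(A, ℚ)`, `T` the tangent space at the origin and `per : W → T` the
inclusion, `ω₀` is the form given by a polarization; `V` is the rational Tate module with the
comparison map `comp : W → V`, the action `ρ` of the Galois group and the Weil pairing `ω`; `χ` is
the cyclotomic character and `γ` the Frobenius element at `v`.  The hypotheses `hss` and `hF` are the
theorems of Faltings.

The proof.  The conjugates of the Weil numbers satisfy no multiplicative relations besides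
`π * conj π = q`: by the slopes, such a relation gives a relation between the translates of a vector
with entries `± 1`; the correlation matrix of such a vector is, by pair-transitivity, given by a
two-graph.  So the Lie algebra of the endomorphisms of `V` that kill all Tate classes contains a
Cartan subalgebra of the symplectic Lie algebra; over a finite extension of `ℚ_ℓ` it is a product of
symplectic and general linear Lie algebras, and the first fundamental theorems for these show that
the Tate classes are generated in degree two.
-/

namespace Pool.Agent.Results.MP_b8862a_ag.OneFrobeniusMumfordTate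

open NumberField Module Pool.Agent.H204R3.GP Pool.Agent.H194R3.CM IntermediateField

/-- The Mumford-Tate conjecture, if the characteristic polynomial of one element `γ` of the Galois
group is the product of the minimal polynomials of Weil numbers `π i` with two slopes, in CM fields
with pair-transitive maximal real subfields. -/
theorem result (ℓ p : ℕ) [Fact ℓ.Prime] [Fact p.Prime] (a : ℕ) (ha : 0 < a)
    {ι : Type} [Fintype ι] (F : ι → Type) [∀ i, Field (F i)] [∀ i, NumberField (F i)]
    [∀ i, IsCMField (F i)] (π : ∀ i, F i) (hπ : PairTransitiveFamily p a π)
    -- the complex torus `A(ℂ)` with a polarization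
    {W T : Type} [AddCommGroup W] [Module ℚ W] [AddCommGroup T] [Module ℂ T] (per : W →+ T)
    (ω₀ : W →ₗ[ℚ] W →ₗ[ℚ] ℚ) (hω₀ : IsHodgeBilinear per ω₀)
    -- the Tate module
    {V : Type} [AddCommGroup V] [Module ℚ_[ℓ] V] [FiniteDimensional ℚ_[ℓ] V] (comp : W →+ V)
    {Γ : Type} [Group Γ] (ρ : Representation ℚ_[ℓ] Γ V) (χ : Γ →* ℚ_[ℓ])
    (ω : V →ₗ[ℚ_[ℓ]] V →ₗ[ℚ_[ℓ]] ℚ_[ℓ]) (halt : ∀ v, ω v v = 0)
    (hnondeg : ∀ u, (∀ v, ω v u = 0) → u = 0)
    (hω : ∀ s u v, ω (ρ s u) (ρ s v) = χ s * ω u v)
    (hωω : ∀ x y, ω (comp x) (comp y) = ((ω₀ x y : ℚ) : ℚ_[ℓ]))
    (hss : FiniteIndexSemisimple ρ) (hF : FaltingsEnd per comp ρ)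
    (γ : Γ) (hχ : χ γ = (p : ℚ_[ℓ]) ^ a)
    (hγ : (ρ γ).charpoly = ∏ i, (minpoly ℚ (π i)).map (algebraMap ℚ ℚ_[ℓ])) :
    MumfordTateStrong per comp ρ χ := by
  have hss' : ∀ Δ : Subgroup Γ, Δ.FiniteIndex → SemiUnder (ρ '' (Δ : Set Γ)) := by
    intro Δ hΔ U hU
    obtain ⟨U', h1, h2⟩ := hss Δ hΔ U (fun s hs u hu => hU _ ⟨s, hs, rfl⟩ u hu)
    refine ⟨U', ?_, h2⟩
    rintro _ ⟨s, hs, rfl⟩ u hu
    exact h1 s hs u hu
  have hnd' : ∀ u, (∀ v, ω u v = 0) → u = 0 := by
    intro u hu
    apply hnondeg
    intro v
    have h1 := halt (u + v)
    simp only [map_add, LinearMap.add_apply, halt, hu, zero_add, add_zero] at h1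
    exact h1
  obtain ⟨L, hL1, hL2, j, h⟩ := Pool.Agent.H204R3.CM.exists_galois F
  let jp : L →ₐ[ℚ] PadicAlgCl p := IsAlgClosed.lift
  have hneat := neat_of_pair j h (jp : L →+* PadicAlgCl p) hπ.weil hπ.slopes hπ.pair hπ.deg
    hπ.flip hπ.low
  exact mumfordTate_of per comp ρ χ ω hnd' hω ω₀ hω₀ hωω hF fun m φ hφ => tate_of_neat ha hπ.gen
    hπ.weil j h hneat ρ χ ω halt hnondeg hω hss' γ hχ hγ φ hφ

end Pool.Agent.Results.MP_b8862a_ag.OneFrobeniusMumfordTate
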